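import Mathlib

namespace Pool.Agent.Results.MP_3e0647_al.Twisted

open Filter Topology OnePoint Matrix

/-- triples of pairwise distinct points, with the subspace topology -/
abbrev T3 (M : Type) : Type := {t : M × M × M // t.1 ≠ t.2.1 ∧ t.1 ≠ t.2.2 ∧ t.2.1 ≠ t.2.2}

/-- the orbit map at `t` -/
def orb {M : Type} (G : Type) [Group G] [MulAction G M] (t : T3 M) (g : G) : T3 M :=
  ⟨(g • t.1.1, g • t.1.2.1, g • t.1.2.2), by simpa using t.2⟩

section A

variable {K : Type} [Field K] [DecidableEq K]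

def J (x : OnePoint K) : OnePoint K :=
  x.elim ((0 : K) : OnePoint K) fun k => if k = 0 then ∞ else ((k⁻¹ : K) : OnePoint K)

theorem exists_three (x y z : OnePoint K) (hxy : x ≠ y) (hxz : x ≠ z) (hyz : y ≠ z) :
    ∃ A : GL (Fin 2) K, A • (∞ : OnePoint K) = x ∧ A • ((0 : K) : OnePoint K) = y ∧
      A • ((1 : K) : OnePoint K) = z := by
  induction x using OnePoint.rec with
  | infty =>
    obtain ⟨y, rfl⟩ := ne_infty_iff_exists.1 hxy.symm
    obtain ⟨z, rfl⟩ := ne_infty_iff_exists.1 hxz.symm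
    have h : z - y ≠ 0 := sub_ne_zero.2 fun h => hyz (by rw [h])
    refine ⟨GeneralLinearGroup.mkOfDetNeZero !![z - y, y; 0, 1] (by simpa [det_fin_two] using h),
      ?_, ?_, ?_⟩ <;>
    simp [smul_infty_eq_ite, smul_some_eq_ite, GeneralLinearGroup.mkOfDetNeZero,
      GeneralLinearGroup.mk', unitOfDetInvertible]
  | coe x =>
    induction y using OnePoint.rec with
    | infty =>
      obtain ⟨z, rfl⟩ := ne_infty_iff_exists.1 hyz.symm
      have h : z - x ≠ 0 := sub_ne_zero.2 fun h => hxz (by rw [h])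
      refine ⟨GeneralLinearGroup.mkOfDetNeZero !![x, z - x; 1, 0]
        (by rw [det_fin_two_of]; intro h'; apply h; linear_combination -h'),
        ?_, ?_, ?_⟩ <;>
      simp [smul_infty_eq_ite, smul_some_eq_ite, GeneralLinearGroup.mkOfDetNeZero,
        GeneralLinearGroup.mk', unitOfDetInvertible]
    | coe y =>
      have h : x - y ≠ 0 := sub_ne_zero.2 fun h => hxy (by rw [h])
      induction z using OnePoint.rec with
      | infty =>
        refine ⟨GeneralLinearGroup.mkOfDetNeZero !![x, -y; 1, -1]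
          (by rw [det_fin_two_of]; intro h'; apply h; linear_combination -h'), ?_, ?_, ?_⟩ <;>
        simp [smul_infty_eq_ite, smul_some_eq_ite, GeneralLinearGroup.mkOfDetNeZero,
          GeneralLinearGroup.mk', unitOfDetInvertible]
      | coe z =>
        have h1 : z - y ≠ 0 := sub_ne_zero.2 fun h => hyz (by rw [h])
        have h2 : x - z ≠ 0 := sub_ne_zero.2 fun h => hxz (by rw [h])
        refine ⟨GeneralLinearGroup.mkOfDetNeZero !![(z - y) * x, (x - z) * y; z - y, x - z]
          (by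
            rw [det_fin_two_of]
            intro h'
            apply mul_ne_zero (mul_ne_zero h h1) h2
            linear_combination h'), ?_, ?_, ?_⟩
        · simp [smul_infty_eq_ite, GeneralLinearGroup.mkOfDetNeZero,
            GeneralLinearGroup.mk', unitOfDetInvertible, h1]
        · simp [smul_some_eq_ite, GeneralLinearGroup.mkOfDetNeZero,
            GeneralLinearGroup.mk', unitOfDetInvertible, h2]
        · have h3 : z - y + (x - z) = x - y := by ring
          simp only [smul_some_eq_ite, GeneralLinearGroup.mkOfDetNeZero,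
            GeneralLinearGroup.mk', unitOfDetInvertible, val_unitOfInvertible, of_apply,
            cons_val', cons_val_zero, cons_val_one, cons_val_fin_one, mul_one, h3, h, if_false,
            coe_eq_coe]
          field_simp
          ring

theorem fix_three (A : GL (Fin 2) K) (h1 : A • (∞ : OnePoint K) = ∞)
    (h2 : A • ((0 : K) : OnePoint K) = (0 : K)) (h3 : A • ((1 : K) : OnePoint K) = (1 : K)) :
    (∀ x : OnePoint K, A • x = x) ∧ ∃ u : Kˣ, GeneralLinearGroup.det A = u * u := by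
  have hc : A 1 0 = 0 := smul_infty_eq_self_iff.1 h1
  have hdet := A.det_ne_zero
  rw [det_fin_two, hc, mul_zero, sub_zero] at hdet
  have hd : A 1 1 ≠ 0 := right_ne_zero_of_mul hdet
  have hb : A 0 1 = 0 := by simpa [smul_some_eq_ite, hc, hd] using h2
  have ha : A 0 0 = A 1 1 := by
    simpa [smul_some_eq_ite, hc, hd, hb, div_eq_one_iff_eq hd] using h3
  refine ⟨fun x => ?_, Units.mk0 _ hd, Units.ext ?_⟩
  · induction x using OnePoint.rec with
    | infty => exact h1
    | coe x => simp [smul_some_eq_ite, hc, hd, hb, ha]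
  · simp [det_fin_two, hc, ha]

variable (σ : K →+* K) (hσ : ∀ x, σ (σ x) = x) (χ : Kˣ →* ℤˣ)
  (hχ : ∀ x, χ (Units.map σ x) = χ x)

def sP : Equiv.Perm (OnePoint K) :=
  Function.Involutive.toPerm (OnePoint.map σ) fun x => by
    induction x using OnePoint.rec with
    | infty => rfl
    | coe x => simp [hσ]

abbrev mu : GL (Fin 2) K →* Equiv.Perm (OnePoint K) := MulAction.toPermHom _ _

theorem sP_mu (A : GL (Fin 2) K) : sP σ hσ * mu A = mu (A.map σ) * sP σ hσ := by
  ext x
  exact OnePoint.map_smul σ A x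

omit [DecidableEq K] in
theorem sP_sP : sP σ hσ * sP σ hσ = 1 := by
  ext x
  induction x using OnePoint.rec with
  | infty => rfl
  | coe x => simp [sP, hσ]

def GG : Subgroup (Equiv.Perm (OnePoint K)) where
  carrier := {e | ∃ A : GL (Fin 2) K, (χ A.det = 1 ∧ e = mu A) ∨
    (χ A.det = -1 ∧ e = mu A * sP σ hσ)}
  one_mem' := ⟨1, Or.inl ⟨by simp, (map_one _).symm⟩⟩
  mul_mem' := by
    rintro _ _ ⟨A, ⟨hA, rfl⟩ | ⟨hA, rfl⟩⟩ ⟨B, ⟨hB, rfl⟩ | ⟨hB, rfl⟩⟩
    · exact ⟨A * B, Or.inl ⟨by simp [hA, hB], by rw [map_mul]⟩⟩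
    · exact ⟨A * B, Or.inr ⟨by simp [hA, hB], by rw [map_mul, mul_assoc]⟩⟩
    · refine ⟨A * B.map σ, Or.inr ⟨?_, ?_⟩⟩
      · rw [map_mul, map_mul, GeneralLinearGroup.map_det, hχ, hA, hB, mul_one]
      · rw [map_mul, mul_assoc, sP_mu, mul_assoc]
    · refine ⟨A * B.map σ, Or.inl ⟨?_, ?_⟩⟩
      · rw [map_mul, map_mul, GeneralLinearGroup.map_det, hχ, hA, hB]; simp
      · rw [map_mul, mul_assoc, ← mul_assoc (sP σ hσ), sP_mu, mul_assoc, sP_sP, mul_one]
  inv_mem' := by
    rintro _ ⟨A, ⟨hA, rfl⟩ | ⟨hA, rfl⟩⟩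
    · exact ⟨A⁻¹, Or.inl ⟨by simp [hA], by rw [map_inv]⟩⟩
    · refine ⟨A⁻¹.map σ, Or.inr ⟨?_, ?_⟩⟩
      · rw [GeneralLinearGroup.map_det, hχ]; simp [hA]
      · rw [← sP_mu, _root_.mul_inv_rev, map_inv, inv_eq_of_mul_eq_one_right (sP_sP σ hσ)]

def base : T3 (OnePoint K) := ⟨(∞, ((0 : K) : OnePoint K), ((1 : K) : OnePoint K)), by simp⟩

theorem orb_mul {M G : Type} [Group G] [MulAction G M] (t : T3 M) (g h : G) :
    orb G t (g * h) = orb G (orb G t h) g := by
  simp [orb, mul_smul]

theorem orb_one {M G : Type} [Group G] [MulAction G M] (t : T3 M) : orb G t 1 = t := by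
  simp [orb]

theorem sharp (s t : T3 (OnePoint K)) : ∃! g : GG σ hσ χ hχ, orb _ s g = t := by
  have tr : ∀ t : T3 (OnePoint K), ∃ g : GG σ hσ χ hχ, orb _ base g = t := by
    rintro ⟨⟨x, y, z⟩, h1, h2, h3⟩
    obtain ⟨A, a1, a2, a3⟩ := exists_three x y z h1 h2 h3
    rcases Int.units_eq_one_or (χ A.det) with h | h
    · refine ⟨⟨mu A, A, Or.inl ⟨h, rfl⟩⟩, Subtype.ext ?_⟩
      simp [orb, base, a1, a2, a3]
    · refine ⟨⟨mu A * sP σ hσ, A, Or.inr ⟨h, rfl⟩⟩, Subtype.ext ?_⟩
      simp [orb, base, sP, a1, a2, a3]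
  have fx : ∀ g : GG σ hσ χ hχ, orb _ base g = base (K := K) → g = 1 := by
    rintro ⟨_, A, ⟨hA, rfl⟩ | ⟨hA, rfl⟩⟩ h
    · have h := congrArg Subtype.val h
      simp only [orb, base, Prod.mk.injEq] at h
      refine Subtype.ext (Equiv.ext fun x => ?_)
      exact (fix_three A h.1 h.2.1 h.2.2).1 x
    · have h := congrArg Subtype.val h
      simp only [orb, base, Prod.mk.injEq] at h
      obtain ⟨u, hu⟩ := (fix_three A h.1 (by simpa [sP] using h.2.1) (by simpa [sP] using h.2.2)).2
      rw [hu, map_mul, Int.units_mul_self] at hA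
      exact absurd hA (by decide)
  obtain ⟨a, rfl⟩ := tr s
  obtain ⟨b, rfl⟩ := tr t
  refine ⟨b * a⁻¹, by simp [← orb_mul], fun g hg => ?_⟩
  have := fx (b⁻¹ * (g * a)) (by rw [orb_mul, orb_mul, hg, ← orb_mul, inv_mul_cancel, orb_one])
  rw [inv_mul_eq_one] at this
  simp [this]

variable [TopologicalSpace K] [IsTopologicalDivisionRing K] [T2Space K]

theorem J_cont (h0 : Tendsto Inv.inv (cocompact K) (𝓝 0))
    (h1 : Tendsto Inv.inv (𝓝[≠] (0 : K)) (cocompact K)) : Continuous (J (K := K)) := by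
  rw [continuous_iff, coclosedCompact_eq_cocompact]
  constructor
  · refine ((continuous_coe.tendsto _).comp h0).congr' ?_
    filter_upwards [isCompact_singleton (x := (0 : K)).compl_mem_cocompact] with x hx
    have hx : x ≠ 0 := hx
    simp [J, hx]
  · refine continuous_iff_continuousAt.2 fun x => ?_
    rcases eq_or_ne x 0 with rfl | hx
    · rw [← continuousWithinAt_compl_self, ContinuousWithinAt]
      have : J ((0 : K) : OnePoint K) = ∞ := by simp [J]
      rw [this]
      have h2 := tendsto_coe_infty (X := K)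
      rw [coclosedCompact_eq_cocompact] at h2
      refine (h2.comp h1).congr' ?_
      filter_upwards [self_mem_nhdsWithin] with x hx
      have hx : x ≠ 0 := hx
      simp [J, hx]
    · refine (continuous_coe.continuousAt.comp (continuousAt_inv₀ hx)).congr ?_
      filter_upwards [isOpen_ne.mem_nhds hx] with y hy
      simp [J, hy]

omit [DecidableEq K] [T2Space K] in
theorem aff_cont (a b : K) (ha : a ≠ 0) :
    Continuous (OnePoint.map fun x : K => a * x + b) :=
  ((Homeomorph.mulLeft₀ a ha).trans (Homeomorph.addRight b)).onePointCongr.continuous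

theorem mu_cont (h0 : Tendsto Inv.inv (cocompact K) (𝓝 0))
    (h1 : Tendsto Inv.inv (𝓝[≠] (0 : K)) (cocompact K)) (A : GL (Fin 2) K) :
    Continuous fun x : OnePoint K => A • x := by
  have hdet := A.det_ne_zero
  rw [det_fin_two] at hdet
  by_cases hc : A 1 0 = 0
  · rw [hc, mul_zero, sub_zero] at hdet
    have hd : A 1 1 ≠ 0 := right_ne_zero_of_mul hdet
    refine (aff_cont (A 0 0 / A 1 1) (A 0 1 / A 1 1)
      (div_ne_zero (left_ne_zero_of_mul hdet) hd)).congr fun x => ?_
    induction x using OnePoint.rec with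
    | infty => simp [smul_infty_eq_ite, hc]
    | coe x =>
      simp only [smul_some_eq_ite, hc, zero_mul, zero_add, hd, if_false, OnePoint.map_some,
        coe_eq_coe]
      ring
  · refine ((aff_cont (-(A 0 0 * A 1 1 - A 0 1 * A 1 0) / A 1 0) (A 0 0 / A 1 0)
      (div_ne_zero (neg_ne_zero.2 hdet) hc)).comp ((J_cont h0 h1).comp
        (aff_cont (A 1 0) (A 1 1) hc))).congr fun x => ?_
    induction x using OnePoint.rec with
    | infty => simp [smul_infty_eq_ite, hc, J]
    | coe x =>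
      by_cases hx : A 1 0 * x + A 1 1 = 0
      · simp [smul_some_eq_ite, hx, J]
      · simp only [smul_some_eq_ite, hx, if_false, OnePoint.map_some, Function.comp_apply, J,
          elim_some, coe_eq_coe]
        field_simp
        ring

theorem GG_cont (h0 : Tendsto Inv.inv (cocompact K) (𝓝 0))
    (h1 : Tendsto Inv.inv (𝓝[≠] (0 : K)) (cocompact K)) (hc : Continuous σ)
    (g : GG σ hσ χ hχ) : Continuous fun x : OnePoint K => g • x := by
  obtain ⟨_, A, ⟨hA, rfl⟩ | ⟨hA, rfl⟩⟩ := g
  · exact mu_cont h0 h1 A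
  · let e : K ≃ₜ K := ⟨⟨σ, σ, hσ, hσ⟩, hc, hc⟩
    exact (mu_cont h0 h1 A).comp e.onePointCongr.continuous

theorem no_top (u : ℕ → Kˣ) (hu : Tendsto (fun n => (u n : K)) atTop (𝓝 1))
    (hu' : ∀ n, χ (u n) = -1) (w : K) (hw : σ w ≠ w) [TopologicalSpace (GG σ hσ χ hχ)] :
    ¬ ∀ t : T3 (OnePoint K), IsHomeomorph (orb (GG σ hσ χ hχ) t) := by
  intro h
  have hw0 : w ≠ 0 := by rintro rfl; simp at hw
  let D : ℕ → GL (Fin 2) K := fun n => GeneralLinearGroup.mkOfDetNeZero !![(u n : K), 0; 0, 1]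
    (by simp [det_fin_two])
  have hD : ∀ n, (D n).det = u n := fun n => Units.ext (by
    simp [D, GeneralLinearGroup.mkOfDetNeZero, GeneralLinearGroup.mk', unitOfDetInvertible,
      det_fin_two])
  let g : ℕ → GG σ hσ χ hχ := fun n => ⟨mu (D n) * sP σ hσ, D n, Or.inr ⟨by rw [hD, hu'], rfl⟩⟩
  have hg : ∀ (n : ℕ) (x : K), g n • (x : OnePoint K) = ((u n * σ x : K) : OnePoint K) := by
    intro n x
    simp [g, D, sP, smul_some_eq_ite, GeneralLinearGroup.mkOfDetNeZero, GeneralLinearGroup.mk',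
      unitOfDetInvertible]
  have hg' : ∀ n : ℕ, g n • (∞ : OnePoint K) = ∞ := by
    intro n
    simp [g, D, sP, smul_infty_eq_ite, GeneralLinearGroup.mkOfDetNeZero, GeneralLinearGroup.mk',
      unitOfDetInvertible]
  have t1 : Tendsto g atTop (𝓝 1) := by
    rw [(h base).isInducing.tendsto_nhds_iff, orb_one, tendsto_subtype_rng]
    simp only [orb, base, Function.comp_apply, hg, hg', map_zero, mul_zero, map_one, mul_one]
    exact tendsto_const_nhds.prodMk_nhds (tendsto_const_nhds.prodMk_nhds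
      ((continuous_coe.tendsto _).comp hu))
  let t : T3 (OnePoint K) := ⟨(∞, ((0 : K) : OnePoint K), ((w : K) : OnePoint K)), by
    simp [hw0.symm]⟩
  have t2 := ((h t).continuous.tendsto 1).comp t1
  rw [orb_one, tendsto_subtype_rng] at t2
  have t3 := t2.snd_nhds.snd_nhds
  simp only [orb, t, Function.comp_apply, hg] at t3
  have := (isOpenEmbedding_coe.isInducing.tendsto_nhds_iff (f := fun n => (u n : K) * σ w)).2 t3
  have t5 := hu.mul_const (σ w)
  rw [one_mul] at t5
  exact hw (tendsto_nhds_unique t5 this)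

end A

theorem exists_fun {V : Type} [AddCommGroup V] [Module (ZMod 2) V] (w : ℕ → V)
    (hw : Function.Injective w) : ∃ φ : V →ₗ[ZMod 2] ZMod 2, {n | φ (w n) = 1}.Infinite := by
  obtain ⟨b, hb, hs, hl⟩ := exists_linearIndependent (ZMod 2) (Set.range w)
  have hl' : LinearIndepOn (ZMod 2) id b := hl
  have hinf : b.Infinite := by
    intro hf
    have := Module.Finite.span_of_finite (ZMod 2) hf
    have h2 : Finite (Submodule.span (ZMod 2) b) := Module.finite_of_finite (ZMod 2)
    refine Set.infinite_range_of_injective hw (Set.Finite.subset (Set.toFinite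
      (Submodule.span (ZMod 2) b : Set V)) ?_)
    rw [hs]
    exact Submodule.subset_span
  refine ⟨(Module.Basis.extend hl').constr (ZMod 2) fun _ => 1, fun hf => hinf ?_⟩
  refine (hf.image w).subset fun x hx => ?_
  obtain ⟨n, rfl⟩ := hb hx
  refine ⟨n, ?_, rfl⟩
  have := Module.Basis.extend_apply_self hl' ⟨w n, hl'.subset_extend _ hx⟩
  change _ = w n at this
  rw [Set.mem_ofPred_eq, ← this, Module.Basis.constr_basis]

section B

open LaurentSeries WithZero HahnSeries

variable {F : Type} [Field F]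

def Bl (F : Type) [Field F] (n : ℤ) : Set F⸨X⸩ := {f | Valued.v f ≤ exp (-n)}

theorem Bl_basis : (𝓝 (0 : F⸨X⸩)).HasBasis (fun _ : ℤ => True) (Bl F) := by
  refine ⟨fun s => ?_⟩
  rw [Valued.mem_nhds_zero]
  constructor
  · rintro ⟨γ, h⟩
    have h0 : MonoidWithZeroHom.ValueGroup₀.embedding γ.1 ≠ 0 := by simp
    refine ⟨-log (MonoidWithZeroHom.ValueGroup₀.embedding γ.1) + 1, trivial,
      fun x hx => h ?_⟩
    rw [Set.mem_ofPred_eq, Valuation.restrict_lt_iff_lt_embedding]
    refine lt_of_le_of_lt hx ?_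
    conv_rhs => rw [← exp_log h0]
    rw [exp_lt_exp]
    omega
  · rintro ⟨n, -, h⟩
    have h0 : Valued.v.restrict (single n (1 : F) : F⸨X⸩) ≠ 0 := by simp
    refine ⟨Units.mk0 _ h0, fun x hx => h ?_⟩
    rw [Set.mem_ofPred_eq, Units.val_mk0, Valuation.restrict_lt_iff, valuation_single_zpow] at hx
    exact hx.le

theorem Bl_open (n : ℤ) : IsOpen (Bl F n) :=
  AddSubgroup.isOpen_of_mem_nhds (Valued.v.leAddSubgroup (exp (-n)))
    (Bl_basis.mem_of_mem (i := n) trivial)

theorem Bl_compact [Finite F] (n : ℤ) : IsCompact (Bl F n) := by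
  let _ : TopologicalSpace F := ⊥
  have : DiscreteTopology F := ⟨rfl⟩
  have hc : Continuous fun g : ℕ → F => ((PowerSeries.mk g : PowerSeries F) : F⸨X⸩) := by
    refine continuous_iff_continuousAt.2 fun g => ?_
    rw [ContinuousAt, ← tendsto_sub_nhds_zero_iff, Bl_basis.tendsto_right_iff]
    intro m _
    have : ∀ᶠ h : ℕ → F in 𝓝 g, ∀ i ∈ Finset.range m.toNat, h i = g i := by
      refine (Filter.eventually_all_finset _).2 fun i _ => ?_
      have := (continuous_apply i).tendsto g
      rwa [nhds_discrete F, tendsto_pure] at this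
    filter_upwards [this] with h hh
    rw [← PowerSeries.coe_sub]
    refine le_trans ((intValuation_le_iff_coeff_lt_eq_zero F (d := m.toNat) _).2 ?_) ?_
    · intro i hi
      simp [hh i (Finset.mem_range.2 hi)]
    · rw [exp_le_exp]
      omega
  have hc2 : Continuous fun g : ℕ → F =>
      (single n (1 : F) : F⸨X⸩) * ((PowerSeries.mk g : PowerSeries F) : F⸨X⸩) :=
    continuous_const.mul hc
  convert isCompact_range hc2
  ext f
  constructor
  · intro hf
    obtain ⟨G, hG⟩ := (val_le_one_iff_eq_coe F (single (-n) (1 : F) * f)).1 (by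
      rw [map_mul, valuation_single_zpow, neg_neg]
      calc exp n * Valued.v f ≤ exp n * exp (-n) := by gcongr; exact hf
        _ = 1 := by rw [← exp_add]; simp)
    refine ⟨fun i => PowerSeries.coeff i G, ?_⟩
    have : PowerSeries.mk (fun i => PowerSeries.coeff i G) = G := by ext; simp
    simp only [this, hG, ← mul_assoc, single_mul_single]
    simp
  · rintro ⟨g, rfl⟩
    have := (val_le_one_iff_eq_coe F _).2 ⟨PowerSeries.mk g, rfl⟩
    simp only [Bl, Set.mem_ofPred_eq]
    rw [map_mul, valuation_single_zpow]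
    exact mul_le_of_le_one_right' this

theorem inv0 [Finite F] : Tendsto Inv.inv (cocompact F⸨X⸩) (𝓝 0) := by
  rw [Bl_basis.tendsto_right_iff]
  intro n _
  filter_upwards [(Bl_compact (F := F) (-n)).compl_mem_cocompact] with x hx
  have hx : exp n < Valued.v x := by simpa [Bl] using hx
  change Valued.v x⁻¹ ≤ _
  rw [map_inv₀, WithZero.exp_neg]
  exact inv_anti₀ (by simp) hx.le

theorem inv1 : Tendsto Inv.inv (𝓝[≠] (0 : F⸨X⸩)) (cocompact F⸨X⸩) := by
  rw [hasBasis_cocompact.tendsto_right_iff]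
  intro C hC
  obtain ⟨n, hn⟩ := hC.elim_directed_cover (fun n : ℤ => Bl F (-n)) (fun n => Bl_open _)
    (fun x _ => by
      rcases eq_or_ne (Valued.v x) 0 with h | h
      · exact Set.mem_iUnion.2 ⟨0, by simp [Bl, h]⟩
      · exact Set.mem_iUnion.2 ⟨log (Valued.v x), by simp [Bl, exp_log h]⟩)
    (Monotone.directed_le fun a b hab x hx =>
      le_trans (show Valued.v x ≤ exp (- -a) from hx) (show _ ≤ exp (- -b) by simpa using hab))
  filter_upwards [self_mem_nhdsWithin,
    mem_nhdsWithin_of_mem_nhds (Bl_basis.mem_of_mem (i := n + 1) trivial)] with x hx0 hx hx'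
  have h1 : Valued.v x⁻¹ ≤ exp n := by simpa [Bl] using hn hx'
  have h2 : Valued.v x * Valued.v x⁻¹ ≤ exp (-(n + 1)) * exp n := mul_le_mul' hx h1
  rw [← map_mul, mul_inv_cancel₀ hx0, map_one, ← exp_add, ← exp_zero, exp_le_exp] at h2
  omega

noncomputable def sg (f : F →+* F) : F⸨X⸩ →+* F⸨X⸩ where
  toFun x := x.map f
  map_one' := HahnSeries.map_one f.toMonoidWithZeroHom
  map_mul' _ _ := HahnSeries.map_mul f.toNonUnitalRingHom
  map_zero' := by ext; simp
  map_add' _ _ := by ext; simp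

theorem sg_coeff (f : F →+* F) (x : F⸨X⸩) (n : ℤ) : (sg f x).coeff n = f (x.coeff n) := rfl

theorem sg_cont (f : F →+* F) : Continuous (sg f) := by
  refine continuous_of_continuousAt_zero (sg f).toAddMonoidHom ?_
  rw [ContinuousAt, map_zero, Bl_basis.tendsto_right_iff]
  intro n _
  filter_upwards [Bl_basis.mem_of_mem (i := n) trivial] with x hx
  refine (valuation_le_iff_coeff_lt_eq_zero F).2 fun m hm => ?_
  change f (x.coeff m) = 0
  rw [(valuation_le_iff_coeff_lt_eq_zero F).1 hx m hm, map_zero]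

theorem sq_coeff [CharP F 2] (y : F⸨X⸩) (k : ℤ) : (y * y).coeff (2 * k + 1) = 0 := by
  rw [HahnSeries.coeff_mul]
  refine Finset.sum_involution (fun p _ => p.swap) (fun p _ => ?_) (fun p hp _ h => ?_)
    (fun p hp => ?_) fun p _ => rfl
  · simp only [Prod.fst_swap, Prod.snd_swap]
    rw [mul_comm]
    exact CharTwo.add_self_eq_zero _
  · have h1 := (Finset.mem_antidiagonal.1 hp).2.2
    have h2 := congrArg Prod.fst h
    simp only [Prod.fst_swap] at h2
    omega
  · obtain ⟨h1, h2, h3⟩ := Finset.mem_antidiagonal.1 hp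
    exact Finset.mem_antidiagonal.2 ⟨h2, h1, by rw [← h3]; exact add_comm _ _⟩

theorem exists_chi [CharP F 2] (f : F →+* F) (hf : ∀ x, f (f x) = x) (a : F) (h1 : a + f a = 1)
    (h2 : a * f a = 1) : ∃ (χ : F⸨X⸩ˣ →* ℤˣ) (u : ℕ → F⸨X⸩ˣ),
      (∀ x, χ (Units.map (sg f) x) = χ x) ∧ Tendsto (fun n => (u n : F⸨X⸩)) atTop (𝓝 1) ∧
      ∀ n, χ (u n) = -1 := by
  have hne : ∀ n : ℕ, (1 + single (2 * (n : ℤ) + 1) a : F⸨X⸩) ≠ 0 := by
    intro n h
    have := congrArg (fun x : F⸨X⸩ => x.coeff 0) h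
    simp [coeff_single, show (0 : ℤ) ≠ 2 * (n : ℤ) + 1 by omega] at this
  let u : ℕ → F⸨X⸩ˣ := fun n => Units.mk0 _ (hne n)
  let N : F⸨X⸩ˣ →* F⸨X⸩ˣ := MonoidHom.id _ * Units.map (sg f)
  have hN : ∀ n, (N (u n) : F⸨X⸩) =
      1 + single (2 * (n : ℤ) + 1) 1 + single (2 * (n : ℤ) + 1 + (2 * (n : ℤ) + 1)) 1 := by
    intro n
    have : sg f (single (2 * (n : ℤ) + 1) a) = single (2 * (n : ℤ) + 1) (f a) := by
      ext m
      rw [sg_coeff, coeff_single, coeff_single]
      split_ifs <;> simp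
    simp only [N, u, MonoidHom.mul_apply, MonoidHom.id_apply, Units.val_mul, Units.coe_map,
      Units.val_mk0, MonoidHom.coe_coe, map_add, map_one, this]
    have e1 : (single (2 * (n : ℤ) + 1) (1 : F) : F⸨X⸩) =
        single (2 * (n : ℤ) + 1) a + single (2 * (n : ℤ) + 1) (f a) := by
      ext m
      rw [coeff_add, coeff_single, coeff_single, coeff_single]
      split_ifs <;> simp [h1]
    have e2 : (single (2 * (n : ℤ) + 1 + (2 * (n : ℤ) + 1)) (1 : F) : F⸨X⸩) =
        single (2 * (n : ℤ) + 1) a * single (2 * (n : ℤ) + 1) (f a) := by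
      rw [single_mul_single, h2]
    rw [e1, e2]
    ring
  let H : AddSubgroup (Additive F⸨X⸩ˣ) := (nsmulAddMonoidHom 2).range
  let _ : Module (ZMod 2) (Additive F⸨X⸩ˣ ⧸ H) :=
    QuotientAddGroup.zmodModule (n := 2) fun x => ⟨x, rfl⟩
  let w : ℕ → Additive F⸨X⸩ˣ ⧸ H := fun n => QuotientAddGroup.mk (Additive.ofMul (N (u n)))
  have key : ∀ m n, m < n → w m ≠ w n := by
    intro m n hmn h
    obtain ⟨y, hy⟩ := QuotientAddGroup.eq.1 h
    have h3 : y.toMul * y.toMul = (N (u m))⁻¹ * N (u n) := by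
      simpa [two_nsmul] using congrArg Additive.toMul hy
    have h4 : (y.toMul * N (u m)) * (y.toMul * N (u m)) = N (u m) * N (u n) := by
      rw [mul_mul_mul_comm, h3]
      simp [mul_assoc, mul_comm, mul_left_comm]
    have h5 := sq_coeff ((y.toMul * N (u m) : F⸨X⸩ˣ) : F⸨X⸩) m
    rw [← Units.val_mul, h4, Units.val_mul, hN, hN] at h5
    simp only [mul_add, add_mul, single_mul_single, one_mul, mul_one, coeff_add, coeff_single,
      coeff_one] at h5
    split_ifs at h5 <;> first | omega | simp at h5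
  have hw : Function.Injective w := fun m n h => by
    rcases lt_trichotomy m n with h' | h' | h'
    exacts [absurd h (key m n h'), h', absurd h.symm (key n m h')]
  obtain ⟨φ, hφ⟩ := exists_fun w hw
  let e : Multiplicative (ZMod 2) →* ℤˣ :=
    { toFun := fun x => if x.toAdd = 0 then 1 else -1
      map_one' := rfl
      map_mul' := by decide }
  let ψ : F⸨X⸩ˣ →* Multiplicative (ZMod 2) :=
    AddMonoidHom.toMultiplicativeRight (φ.toAddMonoidHom.comp (QuotientAddGroup.mk' H))
  refine ⟨e.comp (ψ.comp N), fun n => u (Nat.nth (fun n => φ (w n) = 1) n), fun x => ?_, ?_,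
    fun n => ?_⟩
  · have : N (Units.map (sg f) x) = N x := by
      ext1
      have : sg f (sg f x) = x := by ext m; rw [sg_coeff, sg_coeff, hf]
      simp [N, this, mul_comm]
    simp only [MonoidHom.comp_apply, this]
  · have : Tendsto (fun n => (u n : F⸨X⸩)) atTop (𝓝 1) := by
      rw [← tendsto_sub_nhds_zero_iff, Bl_basis.tendsto_right_iff]
      intro m _
      filter_upwards [eventually_ge_atTop m.toNat] with n hn
      refine (valuation_le_iff_coeff_lt_eq_zero F).2 fun k hk => ?_
      simp only [u, Units.val_mk0, add_sub_cancel_left, coeff_single]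
      rw [if_neg (by omega)]
    exact this.comp (Nat.nth_strictMono hφ).tendsto_atTop
  · have := Nat.nth_mem_of_infinite hφ n
    change (if φ (w _) = 0 then (1 : ℤˣ) else -1) = -1
    rw [this]
    rfl

end B

open LaurentSeries in
theorem result : ¬ ∀ (M G : Type) [TopologicalSpace M] [CompactSpace M] [T2Space M] [Group G]
    [MulAction G M], (∀ g : G, Continuous fun x : M => g • x) →
    (∀ s t : T3 M, ∃! g : G, orb G s g = t) →
    ∃ _ : TopologicalSpace G, ∀ t : T3 M, IsHomeomorph (orb G t) := by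
  classical
  intro h
  let F := GaloisField 2 2
  let _ : Fintype F := Fintype.ofFinite F
  have hcard : Fintype.card F = 4 := by
    rw [← Nat.card_eq_fintype_card]
    exact GaloisField.card 2 2 (by norm_num)
  have h4 : ∀ x : F, x ^ 4 = x := fun x => by rw [← hcard]; exact FiniteField.pow_card x
  let f : F →+* F := frobenius F 2
  have hf : ∀ x, f (f x) = x := fun x => by
    simp only [f, frobenius_def]
    rw [← pow_mul]
    exact h4 x
  obtain ⟨a, ha0, ha1⟩ : ∃ a : F, a ≠ 0 ∧ a ≠ 1 := by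
    by_contra hc
    push Not at hc
    have : (Finset.univ : Finset F) ⊆ {0, 1} := fun x _ => by
      by_cases hx : x = 0 <;> simp [hx, hc x]
    have h2 := (Finset.card_le_card this).trans Finset.card_le_two
    rw [Finset.card_univ, hcard] at h2
    omega
  have h2 : a * f a = 1 := by
    apply mul_left_cancel₀ ha0
    simp only [f, frobenius_def]
    linear_combination h4 a
  have h0 : (2 : F) = 0 := CharTwo.two_eq_zero
  have h1 : a + f a = 1 := by
    apply mul_left_cancel₀ (sub_ne_zero.2 ha1)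
    simp only [f, frobenius_def] at h2 ⊢
    linear_combination h2 + (1 - a) * h0
  obtain ⟨χ, u, hχ, hu, hu'⟩ := exists_chi f hf a h1 h2
  have hσ : ∀ x, sg f (sg f x) = x := fun x => by ext m; rw [sg_coeff, sg_coeff, hf]
  have : LocallyCompactSpace F⸨X⸩ :=
    (Bl_compact (F := F) 0).locallyCompactSpace_of_mem_nhds_of_addGroup
      (Bl_basis.mem_of_mem (i := 0) trivial)
  obtain ⟨τ, hτ⟩ := h (OnePoint F⸨X⸩) (GG (sg f) hσ χ hχ)
    (GG_cont _ hσ χ hχ inv0 inv1 (sg_cont f)) (sharp _ hσ χ hχ)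
  refine no_top _ hσ χ hχ u hu hu' (HahnSeries.single 0 a) (fun h3 => ?_) hτ
  have := congrArg (fun x : F⸨X⸩ => x.coeff 0) h3
  simp only [sg_coeff, HahnSeries.coeff_single_same] at this
  rw [this] at h1
  exact one_ne_zero (by linear_combination a * h0 - h1 : (1 : F) = 0)

end Pool.Agent.Results.MP_3e0647_al.Twisted
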